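import Pool.Agent.N741.HB.Stm2

/-! Project HB: the covering lemma. -/

set_option autoImplicit false

namespace Pool.Agent.N147.HB

open Finset

theorem two_pow_le (M : ℕ) (hM : 1 ≤ M) : 2 * (M - 1) ^ M ≤ M ^ M := by
  obtain ⟨k, rfl⟩ : ∃ k, M = k + 1 := ⟨M - 1, by omega⟩
  rw [Nat.add_sub_cancel]
  rcases Nat.eq_zero_or_pos k with h | h
  · subst h; norm_num
  have hk : (0 : ℝ) < k := by exact_mod_cast h
  have h1 : 1 + ((k + 1 : ℕ) : ℝ) * (1 / k) ≤ (1 + 1 / (k : ℝ)) ^ (k + 1) :=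
    one_add_mul_le_pow (by have : (0 : ℝ) ≤ 1 / k := by positivity
                           linarith) (k + 1)
  have h2 : (2 : ℝ) ≤ 1 + ((k + 1 : ℕ) : ℝ) * (1 / k) := by
    push_cast
    have : (1 : ℝ) ≤ (k + 1) * (1 / k) := by
      rw [mul_one_div, le_div_iff₀ hk]; linarith
    linarith
  have h3 : (2 : ℝ) * (k : ℝ) ^ (k + 1) ≤ ((k : ℝ) + 1) ^ (k + 1) := by
    have e : ((k : ℝ) + 1) ^ (k + 1) = (1 + 1 / (k : ℝ)) ^ (k + 1) * (k : ℝ) ^ (k + 1) := by
      rw [← mul_pow]
      congr 1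
      field_simp
    rw [e]
    exact mul_le_mul_of_nonneg_right (h2.trans h1) (by positivity)
  exact_mod_cast h3

theorem pow_le_three (M : ℕ) (hM : 1 ≤ M) : (M + 1) ^ M ≤ 3 * M ^ M := by
  have hM0 : (0 : ℝ) < M := by exact_mod_cast hM
  have h1 : (1 + 1 / (M : ℝ)) ^ M ≤ 3 := by
    calc (1 + 1 / (M : ℝ)) ^ M ≤ (Real.exp (1 / M)) ^ M := by
          refine pow_le_pow_left₀ (by positivity) ?_ M
          rw [add_comm]
          exact Real.add_one_le_exp _
      _ = Real.exp 1 := by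
          rw [← Real.exp_nat_mul, mul_one_div, div_self hM0.ne']
      _ ≤ 3 := by linarith [Real.exp_one_lt_d9]
  have h2 : ((M : ℝ) + 1) ^ M ≤ 3 * (M : ℝ) ^ M := by
    have e : ((M : ℝ) + 1) ^ M = (1 + 1 / (M : ℝ)) ^ M * (M : ℝ) ^ M := by
      rw [← mul_pow]
      congr 1
      field_simp
    rw [e]
    exact mul_le_mul_of_nonneg_right h1 (by positivity)
  exact_mod_cast h2

variable {α : Type} [DecidableEq α]

/-- claim A -/
theorem claimA (S : Finset α) (F : Finset (Finset α)) (M : ℕ) (hM : 1 ≤ M)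
    (hcov : ∀ W ⊆ F, W.card ≤ M * (Nat.log 2 S.card + 1) → ¬ S ⊆ W.biUnion id)
    (wt : Finset α → ℕ) :
    ∃ x ∈ S, M * ∑ V ∈ F.filter (fun V => x ∈ V), wt V ≤ ∑ V ∈ F, wt V := by
  by_contra hcon
  push Not at hcon
  -- every nonempty subset is covered well by some member
  have h1 : ∀ U ⊆ S, U.Nonempty → ∃ V ∈ F, U.card < M * (U ∩ V).card := by
    intro U hU hne
    by_contra hc
    push Not at hc
    have h2 : ∑ x ∈ U, ∑ V ∈ F, wt V < ∑ x ∈ U, M * ∑ V ∈ F.filter (fun V => x ∈ V), wt V :=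
      sum_lt_sum_of_nonempty hne fun x hx => hcon x (hU hx)
    have h3 : ∑ x ∈ U, M * ∑ V ∈ F.filter (fun V => x ∈ V), wt V =
        ∑ V ∈ F, wt V * (M * (U ∩ V).card) := by
      rw [← mul_sum]
      have h4 : ∀ x ∈ U, ∑ V ∈ F.filter (fun V => x ∈ V), wt V =
          ∑ V ∈ F, if x ∈ V then wt V else 0 := fun x _ => sum_filter _ _
      rw [sum_congr rfl h4, sum_comm, mul_sum]
      refine sum_congr rfl fun V _ => ?_
      rw [← sum_filter, sum_const, smul_eq_mul, filter_mem_eq_inter]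
      ring
    have h4 : ∑ x ∈ U, ∑ V ∈ F, wt V = ∑ V ∈ F, wt V * U.card := by
      rw [sum_const, smul_eq_mul, mul_sum]
      exact sum_congr rfl fun V _ => mul_comm _ _
    rw [h3, h4] at h2
    exact absurd h2 (not_lt.2 (sum_le_sum fun V hV => Nat.mul_le_mul_left _ (hc V hV)))
  have h2 : ∀ m : ℕ, ∃ W ⊆ F, W.card ≤ m ∧
      M ^ m * (S \ W.biUnion id).card ≤ (M - 1) ^ m * S.card := by
    intro m
    induction m with
    | zero => exact ⟨∅, empty_subset _, le_rfl, by simp⟩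
    | succ m ih =>
      obtain ⟨W, hW, hWm, hWc⟩ := ih
      rcases (S \ W.biUnion id).eq_empty_or_nonempty with he | hne
      · exact ⟨W, hW, by omega, by rw [he]; simp⟩
      · obtain ⟨V, hV, hVc⟩ := h1 _ sdiff_subset hne
        refine ⟨insert V W, insert_subset hV hW, ?_, ?_⟩
        · have := card_insert_le V W
          omega
        · have e1 : S \ (insert V W).biUnion id = (S \ W.biUnion id) \ V := by
            ext x
            simp only [mem_sdiff, mem_biUnion, mem_insert, id_eq, exists_eq_or_imp, not_or]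
            tauto
          rw [e1]
          set U := S \ W.biUnion id with hU
          have h3 : (U \ V).card + (U ∩ V).card = U.card := card_sdiff_add_card_inter U V
          have h4 : M * (U \ V).card ≤ (M - 1) * U.card := by
            obtain ⟨k, rfl⟩ : ∃ k, M = k + 1 := ⟨M - 1, by omega⟩
            rw [Nat.add_sub_cancel]
            nlinarith
          calc M ^ (m + 1) * (U \ V).card = M ^ m * (M * (U \ V).card) := by ring
            _ ≤ M ^ m * ((M - 1) * U.card) := Nat.mul_le_mul_left _ h4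
            _ = (M - 1) * (M ^ m * U.card) := by ring
            _ ≤ (M - 1) * ((M - 1) ^ m * S.card) := Nat.mul_le_mul_left _ hWc
            _ = (M - 1) ^ (m + 1) * S.card := by ring
  set l := Nat.log 2 S.card + 1 with hl
  obtain ⟨W, hW, hWm, hWc⟩ := h2 (M * l)
  refine hcov W hW hWm ?_
  rw [← sdiff_eq_empty_iff_subset, ← card_eq_zero]
  by_contra hne
  have h3 : 1 ≤ (S \ W.biUnion id).card := Nat.one_le_iff_ne_zero.2 hne
  have h4 : S.card < 2 ^ l := Nat.lt_pow_succ_log_self (by norm_num) _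
  have h5 : 2 ^ l * (M - 1) ^ (M * l) ≤ M ^ (M * l) := by
    rw [pow_mul, pow_mul, ← mul_pow]
    exact Nat.pow_le_pow_left (two_pow_le M hM) l
  have h6 : 0 < M ^ (M * l) := Nat.pow_pos hM
  have h7 : M ^ (M * l) ≤ (M - 1) ^ (M * l) * S.card := by
    calc M ^ (M * l) = M ^ (M * l) * 1 := (mul_one _).symm
      _ ≤ M ^ (M * l) * (S \ W.biUnion id).card := Nat.mul_le_mul_left _ h3
      _ ≤ _ := hWc
  have h8 : 0 < (M - 1) ^ (M * l) := by
    rcases Nat.eq_zero_or_pos ((M - 1) ^ (M * l)) with h | h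
    · rw [h, zero_mul] at h7; omega
    · exact h
  have h9 : (M - 1) ^ (M * l) * S.card < (M - 1) ^ (M * l) * 2 ^ l := Nat.mul_lt_mul_of_pos_left h4 h8
  rw [mul_comm] at h5
  omega

/-- claim B -/
theorem claimB (S : Finset α) (F : Finset (Finset α)) (M : ℕ) (hM : 1 ≤ M)
    (hcov : ∀ W ⊆ F, W.card ≤ M * (Nat.log 2 S.card + 1) → ¬ S ⊆ W.biUnion id) (i : ℕ) :
    ∃ L : Multiset α, Multiset.card L = i ∧ (∀ x ∈ L, x ∈ S) ∧
      M ^ i * ∑ V ∈ F, 2 ^ (L.countP (fun y => y ∈ V)) ≤ (M + 1) ^ i * F.card := by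
  induction i with
  | zero => exact ⟨0, rfl, by simp, by simp⟩
  | succ i ih =>
    obtain ⟨L, hL1, hL2, hL3⟩ := ih
    obtain ⟨x, hx, hx'⟩ := claimA S F M hM hcov (fun V => 2 ^ (L.countP (fun y => y ∈ V)))
    refine ⟨x ::ₘ L, by simp [hL1], ?_, ?_⟩
    · intro y hy
      rcases Multiset.mem_cons.1 hy with h | h
      · rw [h]; exact hx
      · exact hL2 y h
    · have h1 : ∑ V ∈ F, 2 ^ ((x ::ₘ L).countP (fun y => y ∈ V)) =
          ∑ V ∈ F, 2 ^ (L.countP (fun y => y ∈ V)) +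
            ∑ V ∈ F.filter (fun V => x ∈ V), 2 ^ (L.countP (fun y => y ∈ V)) := by
        rw [sum_filter, ← sum_add_distrib]
        refine sum_congr rfl fun V _ => ?_
        by_cases h : x ∈ V
        · rw [Multiset.countP_cons_of_pos _ h, if_pos h, pow_succ]; ring
        · rw [Multiset.countP_cons_of_neg _ h, if_neg h, add_zero]
      rw [h1]
      set P := ∑ V ∈ F, 2 ^ (L.countP (fun y => y ∈ V)) with hP
      set Q := ∑ V ∈ F.filter (fun V => x ∈ V), 2 ^ (L.countP (fun y => y ∈ V)) with hQ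
      calc M ^ (i + 1) * (P + Q) = M ^ i * (M * P + M * Q) := by ring
        _ ≤ M ^ i * (M * P + P) := Nat.mul_le_mul_left _ (Nat.add_le_add_left hx' _)
        _ = (M + 1) * (M ^ i * P) := by ring
        _ ≤ (M + 1) * ((M + 1) ^ i * F.card) := Nat.mul_le_mul_left _ hL3
        _ = (M + 1) ^ (i + 1) * F.card := by ring

theorem cover : Pool.Agent.N741.HB.S_cover := by
  intro α _ S F M hM hSF hcov
  obtain ⟨L, hL1, hL2, hL3⟩ := claimB S F M hM hcov M
  set l := Nat.log 2 F.card with hl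
  have hF : F.card < 2 ^ (l + 1) := Nat.lt_pow_succ_log_self (by norm_num) _
  have hW : ∑ V ∈ F, 2 ^ (L.countP (fun y => y ∈ V)) ≤ 3 * F.card := by
    have h1 := pow_le_three M hM
    have h2 : 0 < M ^ M := Nat.pow_pos hM
    refine Nat.le_of_mul_le_mul_left ?_ h2
    calc M ^ M * ∑ V ∈ F, 2 ^ (L.countP (fun y => y ∈ V)) ≤ (M + 1) ^ M * F.card := hL3
      _ ≤ (3 * M ^ M) * F.card := Nat.mul_le_mul_right _ h1
      _ = M ^ M * (3 * F.card) := by ring
  have hc : ∀ V ∈ F, L.countP (fun y => y ∈ V) ≤ l + 2 := by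
    intro V hV
    have h1 : 2 ^ (L.countP (fun y => y ∈ V)) ≤ ∑ V ∈ F, 2 ^ (L.countP (fun y => y ∈ V)) :=
      single_le_sum (f := fun V => 2 ^ (L.countP (fun y => y ∈ V))) (fun _ _ => Nat.zero_le _) hV
    have h2 : 2 ^ (L.countP (fun y => y ∈ V)) < 2 ^ (l + 3) := by
      have h3 : 3 * F.card < 2 ^ (l + 3) := by
        have : 2 ^ (l + 3) = 4 * 2 ^ (l + 1) := by ring
        omega
      omega
    have h3 := (Nat.pow_lt_pow_iff_right (by norm_num : 1 < 2)).1 h2
    omega
  refine ⟨L.toFinset, ?_, ?_, ?_⟩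
  · intro x hx
    exact hL2 x (Multiset.mem_toFinset.1 hx)
  · rw [← hL1, ← Multiset.toFinset_sum_count_eq L, mul_comm, ← smul_eq_mul]
    rw [smul_eq_mul, mul_comm]
    have h1 : ∀ x ∈ L.toFinset, L.count x ≤ l + 2 := by
      intro x hx
      obtain ⟨V, hV, hxV⟩ := hSF x (hL2 x (Multiset.mem_toFinset.1 hx))
      refine le_trans ?_ (hc V hV)
      rw [Multiset.countP_eq_card_filter, ← Multiset.count_filter_of_pos (p := fun y => y ∈ V) hxV]
      exact Multiset.count_le_card _ _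
    calc ∑ x ∈ L.toFinset, L.count x ≤ ∑ x ∈ L.toFinset, (l + 2) := sum_le_sum h1
      _ = L.toFinset.card * (l + 2) := by rw [sum_const, smul_eq_mul]
  · intro V hV
    refine le_trans ?_ (hc V hV)
    have h1 : L.toFinset ∩ V ⊆ (L.filter (fun y => y ∈ V)).toFinset := by
      intro x hx
      rw [mem_inter, Multiset.mem_toFinset] at hx
      rw [Multiset.mem_toFinset, Multiset.mem_filter]
      exact hx
    rw [Multiset.countP_eq_card_filter]
    exact (card_le_card h1).trans (Multiset.toFinset_card_le _)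

end Pool.Agent.N147.HB
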